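import Pool.Agent.Helper8.TB.St

set_option autoImplicit false

namespace Pool.Agent.Helper16.TB

open Pool.Helper8.TB MeasureTheory

/-- The derivative of `ψ`. -/
lemma psi_deriv (m : ℕ) (τ ε : ℝ) (q q1 p r : ℝ → ℝ) (D : Dat m τ ε q q1 p r) (b a : ℝ) :
    HasDerivAt (fun x : ℝ => q (Real.cos x) * Real.cos (x - b) + p (Real.cos x) * Real.cos b)
      (-(Real.sin (a - b)) * (q (Real.cos a) + (1 - Real.cos a ^ 2) * r (Real.cos a))) a := by
  have hc : HasDerivAt Real.cos (-Real.sin a) a := Real.hasDerivAt_cos a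
  have h1 : HasDerivAt (fun x : ℝ => q (Real.cos x)) (q1 (Real.cos a) * (-Real.sin a)) a :=
    (D.hq (Real.cos a)).comp a hc
  have h2 : HasDerivAt (fun x : ℝ => p (Real.cos x)) (r (Real.cos a) * (-Real.sin a)) a :=
    (D.hp (Real.cos a)).comp a hc
  have h3 : HasDerivAt (fun x : ℝ => Real.cos (x - b)) (-Real.sin (a - b) * 1) a := by
    have h := ((hasDerivAt_id a).sub_const b).cos
    exact h
  have h4 := (h1.mul h3).add (h2.mul_const (Real.cos b))
  refine h4.congr_deriv ?_
  have hb : Real.cos b = Real.cos a * Real.cos (a - b) + Real.sin a * Real.sin (a - b) := by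
    rw [← Real.cos_sub]; congr 1; ring
  have hq1 : q1 (Real.cos a) = -(Real.cos a * r (Real.cos a)) := by
    rw [D.hr]; ring
  have hs : Real.sin a ^ 2 = 1 - Real.cos a ^ 2 := by
    have := Real.sin_sq_add_cos_sq a; linarith
  rw [hb, hq1]
  linear_combination (-(r (Real.cos a)) * Real.sin (a - b)) * hs

theorem hAng : StAng := by
  intro m τ ε q q1 p r D t s ht hs
  have ht1 : -1 ≤ t := by nlinarith
  have ht2 : t ≤ 1 := by nlinarith
  have hs1 : -1 ≤ s := by nlinarith
  have hs2 : s ≤ 1 := by nlinarith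
  set a := Real.arccos t with ha
  set b := Real.arccos s with hb
  have hca : Real.cos a = t := Real.cos_arccos ht1 ht2
  have hcb : Real.cos b = s := Real.cos_arccos hs1 hs2
  have hsa : Real.sin a = Real.sqrt (1 - t ^ 2) := Real.sin_arccos t
  have hsb : Real.sin b = Real.sqrt (1 - s ^ 2) := Real.sin_arccos s
  have ha0 : 0 ≤ a := Real.arccos_nonneg t
  have hb0 : 0 ≤ b := Real.arccos_nonneg s
  have haπ : a ≤ Real.pi := Real.arccos_le_pi t
  have hbπ : b ≤ Real.pi := Real.arccos_le_pi s
  let ψ : ℝ → ℝ := fun x : ℝ => q (Real.cos x) * Real.cos (x - b) + p (Real.cos x) * Real.cos b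
  have hd : ∀ x, HasDerivAt ψ
      (-(Real.sin (x - b)) * (q (Real.cos x) + (1 - Real.cos x ^ 2) * r (Real.cos x))) x :=
    fun x => psi_deriv m τ ε q q1 p r D b x
  have hcont : Continuous ψ := continuous_iff_continuousAt.2 fun x => (hd x).continuousAt
  have hA : ψ a = q t * (t * s + Real.sqrt (1 - t ^ 2) * Real.sqrt (1 - s ^ 2)) + p t * s := by
    simp only [ψ]
    rw [Real.cos_sub, hca, hcb, hsa, hsb]
  have hB : ψ b = q s + s * p s := by
    simp only [ψ]
    rw [sub_self, Real.cos_zero, hcb]; ring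
  have hpos : ∀ x, 0 < q (Real.cos x) + (1 - Real.cos x ^ 2) * r (Real.cos x) := fun x =>
    D.cvx _ (Real.cos_sq_le_one x)
  have hmono : StrictMonoOn ψ (Set.Icc 0 b) := by
    apply strictMonoOn_of_deriv_pos (convex_Icc 0 b) hcont.continuousOn
    intro x hx
    rw [interior_Icc] at hx
    rw [(hd x).deriv]
    have h1 : Real.sin (x - b) < 0 := by
      apply Real.sin_neg_of_neg_of_neg_pi_lt
      · linarith [hx.2]
      · linarith [hx.1]
    exact mul_pos (by linarith) (hpos x)
  have hanti : StrictAntiOn ψ (Set.Icc b Real.pi) := by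
    apply strictAntiOn_of_deriv_neg (convex_Icc b Real.pi) hcont.continuousOn
    intro x hx
    rw [interior_Icc] at hx
    rw [(hd x).deriv]
    have h1 : 0 < Real.sin (x - b) := by
      apply Real.sin_pos_of_pos_of_lt_pi
      · linarith [hx.1]
      · linarith [hx.2]
    exact mul_neg_of_neg_of_pos (by linarith) (hpos x)
  rw [← hA, ← hB]
  have key : a ≠ b → ψ a < ψ b := by
    intro hab
    rcases lt_or_gt_of_ne hab with h | h
    · exact hmono ⟨ha0, h.le⟩ ⟨hb0, le_refl _⟩ h
    · exact hanti ⟨le_refl _, hbπ⟩ ⟨h.le, haπ⟩ h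
  constructor
  · by_cases hab : a = b
    · rw [hab]
    · exact (key hab).le
  · intro he
    by_contra hts
    have hab : a ≠ b := by
      intro h
      apply hts
      rw [← hca, ← hcb, h]
    exact absurd he (key hab).ne

end Pool.Agent.Helper16.TB
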